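import Mathlib
import Pool.Agent.MP_d145c0_al.H75.Stmt
import Pool.Agent.MP_d145c0_al.H75.All
import Pool.Agent.MP_d145c0_al.H75.LBFin

/-- For `n = 4m+3 ≥ 15` there are exactly `⌊(n+9)/8⌋` isomorphism classes of self-dual string
C-groups of rank `2m` whose group is isomorphic to `A_n`. -/
theorem Pool.Agent.Results.MP_d145c0_al.CountAll.result : ∀ n m : ℕ, n = 4 * m + 3 → 15 ≤ n →
    D145.N n (2 * m) = (((n + 9) / 8 : ℕ) : ℕ∞) := by
  rintro _ m rfl h
  exact le_antisymm (D145.upper_all (by omega)) (D145.lower (by omega))
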